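import Pool.Agent.W295.NL.Stm

/-!
# Bipartite ladder cycles are of the general type
-/

set_option autoImplicit false

namespace Pool.Agent.W366.NL.BG

open Pool.Agent.W295.NL

theorem per_mod {α : Type} (f : ℕ → α) (m : ℕ) (h : ∀ t, f (t + m) = f t) (a b : ℕ)
    (hab : a ≡ b [MOD m]) : f a = f b := by
  have hp : Function.Periodic f m := h
  rw [← hp.map_mod_nat a, ← hp.map_mod_nat b]
  exact congrArg f hab

theorem main : Pool.Agent.W295.NL.S_BG := by
  intro Q L n hn ⟨X, κ, hC, hB⟩
  have back : ∀ t, X (κ t) (t + 2 * n - 1) = X (κ t) t := by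
    intro t
    have h1 := hC.edge (t + 2 * n - 1)
    have h2 : t + 2 * n - 1 + 1 = t + 2 * n := by omega
    rw [h2, hC.kper, hC.per] at h1
    exact h1.symm
  have b2 : ∀ t, t + 2 * n - 1 ≡ t + 1 [MOD 2] := by
    intro t
    unfold Nat.ModEq
    omega
  have b3 : ∀ t s, t + 2 * n - 1 ≡ s [MOD 2 * n] → s + 1 ≡ t [MOD 2 * n] := by
    intro t s h
    have h1 := h.add_right 1
    have h2 : t + 2 * n - 1 + 1 = t + 2 * n := by omega
    rw [h2] at h1
    exact h1.symm.trans (by unfold Nat.ModEq; rw [Nat.add_mod_right])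
  refine ⟨X, κ, fun t => (t : ZMod 2), hC, fun t => ?_, fun a t t' hX => ?_⟩
  · show ((t + 2 * n : ℕ) : ZMod 2) = (t : ZMod 2)
    rw [ZMod.natCast_eq_natCast_iff]
    unfold Nat.ModEq
    omega
  · by_cases hp : t ≡ t' [MOD 2]
    · exact Or.inl (hB a t t' hX hp).symm
    · have hp' : t + 1 ≡ t' [MOD 2] := by
        unfold Nat.ModEq at hp ⊢
        omega
      have hp'' : t' + 1 ≡ t [MOD 2] := by
        unfold Nat.ModEq at hp ⊢
        omega
      refine Or.inr ?_
      by_cases h1 : a = κ (t + 1)
      · refine Or.inl ⟨h1, ?_⟩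
        have h2 : X a (t + 1) = X a t' := by
          rw [← hX, h1]
          exact hC.edge t
        exact (hB a (t + 1) t' h2 hp').symm
      · refine Or.inr ?_
        by_cases h2 : a = κ t
        · refine Or.inl ⟨h2, b3 t t' ?_⟩
          have h3 : X a (t + 2 * n - 1) = X a t' := by
            rw [← hX, h2]
            exact back t
          exact hB a _ t' h3 ((b2 t).trans hp')
        · refine Or.inr ⟨h2, h1, fun h3 => ?_, fun h3 => ?_, fun h3 => ?_⟩
          · have h4 : X a (t' + 2 * n - 1) = X a t := by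
              rw [hX, h3]
              exact back t'
            have h5 := b3 t' t (hB a _ t h4 ((b2 t').trans hp''))
            exact h1 (h3.trans (per_mod κ (2 * n) hC.kper _ _ h5).symm)
          · have h4 : X a (t' + 1) = X a t := by
              rw [hX, h3]
              exact hC.edge t'
            have h5 := hB a (t' + 1) t h4 hp''
            exact h2 (h3.trans (per_mod κ (2 * n) hC.kper _ _ h5))
          · exact hp ((ZMod.natCast_eq_natCast_iff _ _ _).1 h3)

end Pool.Agent.W366.NL.BG
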